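import Pool.Agent.V11226.ET.BP

/-!
# Automatic host sets
-/

set_option autoImplicit false

open Finset

namespace Pool.Agent.V11226.ET

/-- `f` is additive on the digits in base `b` -/
def IsAdditive (b : ℕ) (f : ℕ → ℕ) : Prop :=
  ∀ k a r : ℕ, r < b ^ k → f (a * b ^ k + r) = f (a * b ^ k) + f r

theorem IsAdditive.zero {b : ℕ} {f : ℕ → ℕ} (hf : IsAdditive b f) : f 0 = 0 := by
  have := hf 0 0 0 (by simp)
  simp at this
  exact this

section
variable {Q : Type*} (b : ℕ) (δ : Q → ℕ → Q)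

/-- one step of the automaton that also remembers the state after the last nonzero digit -/
def st1 (s : Q × Q) (d : ℕ) : Q × Q := (δ s.1 d, if d = 0 then s.2 else δ s.1 d)

/-- reading `n` digits -/
def PR : ℕ → Q × Q → ℕ → Q × Q
  | 0, s, _ => s
  | n + 1, s, x => PR n (st1 δ s (x % b)) (x / b)

theorem PR_add (n k : ℕ) (s : Q × Q) (x : ℕ) :
    PR b δ (n + k) s x = PR b δ k (PR b δ n s x) (x / b ^ n) := by
  induction n generalizing s x with
  | zero => simp [PR]
  | succ n ih =>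
    rw [show n + 1 + k = (n + k) + 1 by omega, PR, PR, ih, Nat.div_div_eq_div_mul, pow_succ,
      mul_comm b]

theorem PR_mod (n : ℕ) (s : Q × Q) (x : ℕ) : PR b δ n s (x % b ^ n) = PR b δ n s x := by
  induction n generalizing s x with
  | zero => rfl
  | succ n ih =>
    rw [PR, PR]
    have h1 : x % b ^ (n + 1) % b = x % b :=
      Nat.mod_mod_of_dvd x (dvd_pow_self b (by omega))
    have h2 : x % b ^ (n + 1) / b = x / b % b ^ n := by
      rw [pow_succ, mul_comm, Nat.mod_mul_right_div_self]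
    rw [h1, h2, ih]

theorem PR_snd (hb : 2 ≤ b) (n : ℕ) (s : Q × Q) (x : ℕ) (hx : x < b ^ n) :
    (PR b δ n s x).2 = if x = 0 then s.2 else (Nat.digits b x).foldl δ s.1 := by
  induction n generalizing s x with
  | zero =>
    have : x = 0 := by simpa using hx
    subst this
    simp [PR]
  | succ n ih =>
    rw [PR]
    have h2 : x / b < b ^ n := by
      rw [Nat.div_lt_iff_lt_mul (by omega), ← pow_succ]
      exact hx
    rw [ih _ _ h2]
    rcases Nat.eq_zero_or_pos x with h0 | h0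
    · subst h0
      simp [st1]
    · have hne : x ≠ 0 := by omega
      rw [if_neg hne, Nat.digits_def' (by omega) h0, List.foldl_cons]
      split_ifs with h3
      · have h4 : x % b ≠ 0 := by
          intro h5
          have h6 := Nat.div_add_mod x b
          rw [h3, h5, Nat.mul_zero] at h6
          omega
        rw [h3]
        simp [st1, h4]
      · rfl

end

theorem compare_step (c d r t M : ℕ) (h1 : r < M) (h2 : t < M) :
    (if c < d then true else if d < c then false else decide (r ≤ t)) =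
      decide (r + M * c ≤ t + M * d) := by
  split_ifs with h3 h4
  · symm
    rw [decide_eq_true_iff]
    have : M * (c + 1) ≤ M * d := Nat.mul_le_mul_left M h3
    rw [Nat.mul_add] at this
    omega
  · symm
    rw [decide_eq_false_iff_not]
    have : M * (d + 1) ≤ M * c := Nat.mul_le_mul_left M h4
    rw [Nat.mul_add] at this
    omega
  · have : c = d := by omega
    subst this
    simp

section machine
variable {w : ℕ} (b l N : ℕ) (δ : Fin w → ℕ → Fin w)

/-- the states: state, state after the last nonzero digit, comparison with `N` -/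
def bstep {m : ℕ} (i : Fin m) (s : (Fin w × Fin w) × Bool) (a : Fin (b ^ l)) :
    (Fin w × Fin w) × Bool :=
  (PR b δ l s.1 a, if (a : ℕ) < N / (b ^ l) ^ (i : ℕ) % b ^ l then true
    else if N / (b ^ l) ^ (i : ℕ) % b ^ l < (a : ℕ) then false else s.2)

theorem run_bstep {m : ℕ} (q₀ : Fin w) (x : ℕ) (hB : 1 ≤ b ^ l) (u : Fin m → Fin (b ^ l))
    (hu : ∀ i, (u i : ℕ) = x / (b ^ l) ^ (i : ℕ) % b ^ l) (i : Fin (m + 1)) :
    run (bstep b l N δ) ((q₀, q₀), true) u i =
      (PR b δ (l * i) (q₀, q₀) x, decide (x % (b ^ l) ^ (i : ℕ) ≤ N % (b ^ l) ^ (i : ℕ))) := by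
  induction i using Fin.induction with
  | zero => simp [run_zero, PR, Nat.mod_one]
  | succ i ih =>
    rw [run_succ, ih]
    unfold bstep
    refine Prod.ext ?_ ?_
    · show PR b δ l (PR b δ (l * (i.castSucc : ℕ)) (q₀, q₀) x) (u i) = PR b δ (l * (i.succ : ℕ)) (q₀, q₀) x
      rw [hu, PR_mod, Fin.val_castSucc, Fin.val_succ, Nat.mul_add, Nat.mul_one, PR_add, ← pow_mul]
    · show (if (u i : ℕ) < N / (b ^ l) ^ (i : ℕ) % b ^ l then true
        else if N / (b ^ l) ^ (i : ℕ) % b ^ l < (u i : ℕ) then false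
          else decide (x % (b ^ l) ^ (i.castSucc : ℕ) ≤ N % (b ^ l) ^ (i.castSucc : ℕ))) =
        decide (x % (b ^ l) ^ (i.succ : ℕ) ≤ N % (b ^ l) ^ (i.succ : ℕ))
      rw [hu, Fin.val_castSucc, Fin.val_succ]
      have hp : 0 < (b ^ l) ^ (i : ℕ) := Nat.pow_pos hB
      rw [Nat.mod_pow_succ, Nat.mod_pow_succ]
      exact compare_step _ _ _ _ _ (Nat.mod_lt x hp) (Nat.mod_lt N hp)

end machine

theorem additive_sum {b : ℕ} {f : ℕ → ℕ} (hf : IsAdditive b f) (hb : 1 ≤ b) (l m x : ℕ) :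
    ∑ i ∈ range m, f (x / (b ^ l) ^ i % b ^ l * (b ^ l) ^ i) = f (x % (b ^ l) ^ m) := by
  induction m with
  | zero => simp [hf.zero, Nat.mod_one]
  | succ m ih =>
    rw [sum_range_succ, ih]
    have h1 : x % (b ^ l) ^ (m + 1) =
        x / (b ^ l) ^ m % b ^ l * b ^ (l * m) + x % (b ^ l) ^ m := by
      rw [Nat.mod_pow_succ, pow_mul]
      ring
    rw [h1, hf (l * m) _ _ (by rw [pow_mul]; exact Nat.mod_lt _ (Nat.pow_pos (Nat.pow_pos hb))),
      pow_mul, add_comm]

/-- `S` is accepted by an automaton with `w` states reading the digits in base `b`. -/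
def Recognised (b w : ℕ) (S : Set ℕ) : Prop :=
  ∃ (δ : Fin w → ℕ → Fin w) (q₀ : Fin w) (F : Set (Fin w)),
    ∀ x, x ∈ S ↔ (Nat.digits b x).foldl δ q₀ ∈ F

theorem count {b w l m N : ℕ} (hb : 2 ≤ b) (hm : 1 ≤ m) (hN : N < (b ^ l) ^ m) {A : Set ℕ}
    {h K Y : ℕ} (hh : 2 ≤ h) (hr : ∀ n ≤ h * Y, (msets A h n).ncard ≤ K) {S : Set ℕ}
    (hS : Recognised b w S) {f : ℕ → ℕ} (hf : IsAdditive b f) (t k : ℕ) :
    (({y | y ∈ A ∧ y ≤ Y ∧ ∃ x ∈ S, x ≤ N ∧ t + f x = y} : Set ℕ).ncard : ℝ) ≤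
      h.factorial * K * ((7 / 8) ^ k * ({x | x ∈ S ∧ x ≤ N} : Set ℕ).ncard +
        ((2 * w ^ 2 : ℕ) : ℝ) ^ (m + 1) * ((b ^ l : ℕ) : ℝ) ^ k) := by
  classical
  obtain ⟨δ, q₀, F, hF⟩ := hS
  have hB : 1 ≤ b ^ l := Nat.one_le_pow _ _ (by omega)
  have : Nonempty (Fin (b ^ l)) := ⟨⟨0, by omega⟩⟩
  have hfin : ({y | y ∈ A ∧ y ≤ Y ∧ ∃ x ∈ S, x ≤ N ∧ t + f x = y} : Set ℕ).Finite := by
    refine ((range (N + 1)).image (fun x => t + f x)).finite_toSet.subset ?_
    rintro y ⟨-, -, x, -, hx, rfl⟩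
    rw [Finset.mem_coe, mem_image]
    exact ⟨x, by rw [mem_range]; omega, rfl⟩
  have hfin2 : ({x | x ∈ S ∧ x ≤ N} : Set ℕ).Finite :=
    (Set.finite_Iic N).subset fun x hx => hx.2
  set X := hfin.toFinset with hX
  set F' : Finset ((Fin w × Fin w) × Bool) := univ.filter fun s => s.1.2 ∈ F ∧ s.2 = true with hF'
  have haccept : ∀ (u : Fin m → Fin (b ^ l)) (x : ℕ), x < (b ^ l) ^ m →
      (∀ i, (u i : ℕ) = x / (b ^ l) ^ (i : ℕ) % b ^ l) →
      (run (bstep b l N δ) ((q₀, q₀), true) u (Fin.last m) ∈ F' ↔ x ∈ S ∧ x ≤ N) := by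
    intro u x hx hu
    rw [run_bstep b l N δ q₀ x hB u hu, hF', mem_filter]
    have h1 : (PR b δ (l * ((Fin.last m : Fin (m + 1)) : ℕ)) (q₀, q₀) x).2 =
        (Nat.digits b x).foldl δ q₀ := by
      rw [Fin.val_last, PR_snd b δ hb _ _ _ (by rw [pow_mul]; exact hx)]
      split_ifs with h0
      · rw [h0]; simp
      · rfl
    rw [h1, hF x]
    simp only [mem_univ, true_and, Fin.val_last, Nat.mod_eq_of_lt hx, Nat.mod_eq_of_lt hN,
      decide_eq_true_iff]
  let wt : Fin m → Fin (b ^ l) → ℕ := fun i a =>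
    f ((a : ℕ) * (b ^ l) ^ (i : ℕ)) + if (i : ℕ) = 0 then t else 0
  have h1 := bp (Q := (Fin w × Fin w) × Bool) (U := Fin (b ^ l)) hh hr (bstep b l N δ)
    ((q₀, q₀), true) F' wt X (fun x hx => by
      rw [hX, Set.Finite.mem_toFinset] at hx
      exact ⟨hx.1, hx.2.1⟩) (by
      intro y hy
      rw [hX, Set.Finite.mem_toFinset] at hy
      obtain ⟨-, -, x, hxS, hxN, rfl⟩ := hy
      refine ⟨fun i => ⟨x / (b ^ l) ^ (i : ℕ) % b ^ l, Nat.mod_lt _ hB⟩, ?_, ?_⟩
      · exact (haccept _ x (by omega) (fun i => rfl)).2 ⟨hxS, hxN⟩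
      · simp only [wt]
        rw [sum_add_distrib, Fin.sum_univ_eq_sum_range
          (fun i => f (x / (b ^ l) ^ i % b ^ l * (b ^ l) ^ i)) m,
          additive_sum hf (by omega), Nat.mod_eq_of_lt (by omega),
          Fin.sum_univ_eq_sum_range (fun i => if i = 0 then t else 0) m]
        have h2 : ∑ i ∈ range m, (if i = 0 then t else 0) = t := by
          rw [sum_ite_eq' (range m) 0 (fun _ => t), if_pos (mem_range.2 (by omega))]
        rw [h2, add_comm]) k
  rw [Set.ncard_eq_toFinset_card _ hfin]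
  refine h1.trans (mul_le_mul_of_nonneg_left ?_ (by positivity))
  have h3 : (acc (bstep b l N δ) ((q₀, q₀), true) F' (m := m)).card ≤
      ({x | x ∈ S ∧ x ≤ N} : Set ℕ).ncard := by
    rw [Set.ncard_eq_toFinset_card _ hfin2]
    refine card_le_card_of_injOn (fun u => ((finFunctionFinEquiv u : Fin ((b ^ l) ^ m)) : ℕ)) ?_ ?_
    · intro u hu
      rw [Finset.mem_coe, acc, mem_filter] at hu
      rw [Finset.mem_coe, Set.Finite.mem_toFinset]
      refine (haccept u _ (Fin.is_lt _) fun i => ?_).1 hu.2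
      have h4 := finFunctionFinEquiv.symm_apply_apply u
      conv_lhs => rw [← h4]
      rfl
    · intro u _ v _ huv
      exact finFunctionFinEquiv.injective (Fin.ext huv)
  have h5 : Fintype.card ((Fin w × Fin w) × Bool) = 2 * w ^ 2 := by
    simp only [Fintype.card_prod, Fintype.card_fin, Fintype.card_bool]
    ring
  rw [h5, Fintype.card_fin]
  have h6 : ((acc (bstep b l N δ) ((q₀, q₀), true) F' (m := m)).card : ℝ) ≤
      (({x | x ∈ S ∧ x ≤ N} : Set ℕ).ncard : ℝ) := by exact_mod_cast h3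
  have h7 : (0 : ℝ) ≤ (7 / 8) ^ k := by positivity
  have h8 := mul_le_mul_of_nonneg_left h6 h7
  linarith

end Pool.Agent.V11226.ET
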