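import Pool.Agent.V11226.ET.Grid

/-!
# Sets with bounded representation function and sets accepted by branching programs
-/

set_option autoImplicit false

open Finset

namespace Pool.Agent.V11226.ET

section BP

variable {Q U : Type*} {m : ℕ}

/-- the states of a program after reading `0, …, m` letters -/
def run (step : Fin m → Q → U → Q) (q₀ : Q) (x : Fin m → U) : Fin (m + 1) → Q :=
  fun i => Fin.induction (motive := fun _ => Q) q₀ (fun i q => step i q (x i)) i

theorem run_zero (step : Fin m → Q → U → Q) (q₀ : Q) (x : Fin m → U) : run step q₀ x 0 = q₀ := rfl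

theorem run_succ (step : Fin m → Q → U → Q) (q₀ : Q) (x : Fin m → U) (i : Fin m) :
    run step q₀ x i.succ = step i (run step q₀ x i.castSucc) (x i) := by
  unfold run
  exact Fin.induction_succ (motive := fun _ => Q) q₀ (fun i q => step i q (x i)) i

theorem run_unique (step : Fin m → Q → U → Q) (q₀ : Q) (x : Fin m → U) (p : Fin (m + 1) → Q)
    (h0 : p 0 = q₀) (hp : ∀ i, step i (p i.castSucc) (x i) = p i.succ) : run step q₀ x = p := by
  funext i
  induction i using Fin.induction with
  | zero => rw [run_zero, h0]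
  | succ i ih => rw [run_succ, ih, hp]

theorem prod_g {ι : Type*} (s : Finset ι) (c : ι → ℕ) (u : ℕ) (hc : ∀ i ∈ s, c i ≤ u) (hu : 1 ≤ u)
    (k : ℕ) : ∏ i ∈ s, g (c i) ≤ (7 / 8) ^ k * ∏ i ∈ s, (c i : ℝ) + (u : ℝ) ^ k := by
  classical
  set T := s.filter fun i => 2 ≤ c i with hT
  have hu' : (1 : ℝ) ≤ u := by exact_mod_cast hu
  have hprod : 0 ≤ ∏ i ∈ s, (c i : ℝ) := prod_nonneg fun i _ => Nat.cast_nonneg _
  rcases le_or_gt k T.card with hk | hk
  · have h1 : ∏ i ∈ s, g (c i) = (7 / 8) ^ T.card * ∏ i ∈ s, (c i : ℝ) := by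
      rw [← prod_filter_mul_prod_filter_not s (fun i => 2 ≤ c i) (fun i => g (c i)),
        ← prod_filter_mul_prod_filter_not s (fun i => 2 ≤ c i) (fun i => (c i : ℝ)), ← mul_assoc]
      congr 1
      · rw [← hT, ← prod_const, ← prod_mul_distrib]
        refine prod_congr rfl fun i hi => ?_
        unfold g
        rw [if_pos (mem_filter.1 hi).2]
      · refine prod_congr rfl fun i hi => ?_
        unfold g
        rw [if_neg (mem_filter.1 hi).2]
    rw [h1]
    have h2 : (7 / 8 : ℝ) ^ T.card ≤ (7 / 8) ^ k :=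
      pow_le_pow_of_le_one (by norm_num) (by norm_num) hk
    have h3 := mul_le_mul_of_nonneg_right h2 hprod
    have h4 : (0 : ℝ) ≤ (u : ℝ) ^ k := by positivity
    linarith
  · have h1 : ∏ i ∈ s, g (c i) ≤ (u : ℝ) ^ k := by
      rw [← prod_filter_mul_prod_filter_not s (fun i => 2 ≤ c i) (fun i => g (c i)), ← hT]
      have h2 : ∏ i ∈ T, g (c i) ≤ (u : ℝ) ^ T.card := by
        rw [← prod_const]
        refine prod_le_prod (fun i _ => g_nonneg _) fun i hi => ?_
        refine (g_le _).trans ?_
        exact_mod_cast hc i (mem_filter.1 hi).1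
      have h3 : ∏ i ∈ s.filter (fun i => ¬ 2 ≤ c i), g (c i) ≤ 1 := by
        refine prod_le_one (fun i _ => g_nonneg _) fun i hi => ?_
        refine (g_le _).trans ?_
        have : c i ≤ 1 := by have := (mem_filter.1 hi).2; omega
        exact_mod_cast this
      have h4 : (u : ℝ) ^ T.card ≤ (u : ℝ) ^ k := pow_le_pow_right₀ hu' hk.le
      calc _ ≤ (u : ℝ) ^ T.card * 1 := mul_le_mul h2 h3
            (prod_nonneg fun i _ => g_nonneg _) (by positivity)
        _ ≤ _ := by rw [mul_one]; exact h4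
    have h5 : (0 : ℝ) ≤ (7 / 8) ^ k * ∏ i ∈ s, (c i : ℝ) := mul_nonneg (by positivity) hprod
    linarith

variable [Fintype Q] [DecidableEq Q] [Fintype U] [DecidableEq U]

/-- the accepted words -/
def acc (step : Fin m → Q → U → Q) (q₀ : Q) (F : Finset Q) : Finset (Fin m → U) :=
  univ.filter fun x => run step q₀ x (Fin.last m) ∈ F

omit [DecidableEq U] in
theorem sum_paths (step : Fin m → Q → U → Q) (q₀ : Q) (F : Finset Q) :
    ∑ p ∈ univ.filter (fun p : Fin (m + 1) → Q => p 0 = q₀ ∧ p (Fin.last m) ∈ F),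
      ∏ i, (univ.filter fun a => step i (p i.castSucc) a = p i.succ).card =
      (acc step q₀ F).card := by
  rw [card_eq_sum_card_fiberwise (f := run step q₀) (s := acc step q₀ F)
    (t := univ.filter (fun p : Fin (m + 1) → Q => p 0 = q₀ ∧ p (Fin.last m) ∈ F))]
  · refine sum_congr rfl fun p hp => ?_
    rw [mem_filter] at hp
    rw [← Fintype.card_piFinset]
    congr 1
    ext x
    rw [Fintype.mem_piFinset, mem_filter]
    constructor
    · intro h
      have h1 : run step q₀ x = p := run_unique step q₀ x p hp.2.1 fun i => (mem_filter.1 (h i)).2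
      refine ⟨?_, h1⟩
      rw [acc, mem_filter]
      exact ⟨mem_univ _, by rw [h1]; exact hp.2.2⟩
    · rintro ⟨-, h1⟩ i
      rw [mem_filter]
      refine ⟨mem_univ _, ?_⟩
      rw [← h1, run_succ]
  · intro x hx
    rw [Finset.mem_coe, acc, mem_filter] at hx
    rw [Finset.mem_coe, mem_filter]
    exact ⟨mem_univ _, rfl, hx.2⟩

/-- **Branching programs.** If the elements of `X ⊆ A` are values `∑ wt i (x i)` of words `x`
accepted by a program then `X` is small compared with the number of accepted words. -/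
theorem bp [Nonempty U] {A : Set ℕ} {h K Y : ℕ} (hh : 2 ≤ h)
    (hr : ∀ n ≤ h * Y, (msets A h n).ncard ≤ K) (step : Fin m → Q → U → Q) (q₀ : Q) (F : Finset Q)
    (wt : Fin m → U → ℕ) (X : Finset ℕ) (hX : ∀ x ∈ X, x ∈ A ∧ x ≤ Y)
    (hS : ∀ x ∈ X, ∃ w : Fin m → U, run step q₀ w (Fin.last m) ∈ F ∧ ∑ i, wt i (w i) = x) (k : ℕ) :
    (X.card : ℝ) ≤ h.factorial * K * ((7 / 8) ^ k * (acc step q₀ F).card +
      (Fintype.card Q : ℝ) ^ (m + 1) * (Fintype.card U : ℝ) ^ k) := by
  set P := univ.filter (fun p : Fin (m + 1) → Q => p 0 = q₀ ∧ p (Fin.last m) ∈ F) with hP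
  have h1 := cover (J := Fin (m + 1) → Q) (ι := Fin m) hh hr P
    (fun p i => (univ.filter fun a => step i (p i.castSucc) a = p i.succ).image (wt i)) X hX (by
      intro x hx
      obtain ⟨w, hw1, hw2⟩ := hS x hx
      refine ⟨run step q₀ w, ?_, fun i => wt i (w i), fun i => ?_, hw2⟩
      · rw [hP, mem_filter]
        exact ⟨mem_univ _, rfl, hw1⟩
      · refine mem_image_of_mem _ ?_
        rw [mem_filter]
        exact ⟨mem_univ _, (run_succ step q₀ w i).symm⟩)
  refine h1.trans (mul_le_mul_of_nonneg_left ?_ (by positivity))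
  have h2 : ∀ p ∈ P, ∏ i, g ((univ.filter fun a => step i (p i.castSucc) a = p i.succ).image
      (wt i)).card ≤ (7 / 8) ^ k *
        ∏ i, ((univ.filter fun a => step i (p i.castSucc) a = p i.succ).card : ℝ) +
        (Fintype.card U : ℝ) ^ k := by
    intro p _
    refine (prod_le_prod (fun i _ => g_nonneg _) fun i _ => g_mono card_image_le).trans ?_
    exact prod_g univ _ _ (fun i _ => card_le_univ _) Fintype.card_pos k
  refine (sum_le_sum h2).trans ?_
  rw [sum_add_distrib, ← mul_sum, sum_const, nsmul_eq_mul]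
  have h3 := sum_paths step q₀ F
  rw [← hP] at h3
  have h4 : ∑ p ∈ P, ∏ i, ((univ.filter fun a => step i (p i.castSucc) a = p i.succ).card : ℝ) =
      ((acc step q₀ F).card : ℝ) := by
    rw [← h3]
    push_cast
    rfl
  rw [h4]
  have h5 : (P.card : ℝ) ≤ (Fintype.card Q : ℝ) ^ (m + 1) := by
    have h6 : P.card ≤ Fintype.card Q ^ (m + 1) := by
      refine (card_le_univ P).trans ?_
      rw [Fintype.card_fun, Fintype.card_fin]
    exact_mod_cast h6
  have h7 : (0 : ℝ) ≤ (Fintype.card U : ℝ) ^ k := by positivity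
  have h8 := mul_le_mul_of_nonneg_right h5 h7
  linarith

end BP

end Pool.Agent.V11226.ET
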