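import Pool.Agent.V11226.ET.Main

/-!
# Consequences: relative forms of the conjecture of Erdős and Turán
-/

set_option autoImplicit false

open Finset Filter

namespace Pool.Agent.V11226.ET

theorem ev_small (C c a b : ℝ) (hc : 0 < c) (ha : 0 < a) (hb : 0 < b) :
    ∀ᶠ N : ℕ in atTop, C * ((N : ℝ) ^ (-a) + (N : ℝ) ^ (-b)) < c := by
  have h1 : Tendsto (fun N : ℕ => (N : ℝ) ^ (-a)) atTop (nhds 0) :=
    (tendsto_rpow_neg_atTop ha).comp tendsto_natCast_atTop_atTop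
  have h2 : Tendsto (fun N : ℕ => (N : ℝ) ^ (-b)) atTop (nhds 0) :=
    (tendsto_rpow_neg_atTop hb).comp tendsto_natCast_atTop_atTop
  have h3 := (h1.add h2).const_mul C
  rw [add_zero, mul_zero] at h3
  exact h3.eventually (gt_mem_nhds hc)

theorem isAdditive_id (b : ℕ) : IsAdditive b (fun x => x) := fun _ _ _ _ => rfl

theorem inter_eq (A S : Set ℕ) (N : ℕ) :
    ({y | y ∈ A ∧ y ≤ N ∧ ∃ x ∈ S, x ≤ N ∧ 0 + (fun x => x) x = y} : Set ℕ) =
      {x | x ∈ A ∧ x ∈ S ∧ x ≤ N} := by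
  ext y
  constructor
  · rintro ⟨h1, -, x, h2, h3, h4⟩
    have : y = x := by simpa using h4.symm
    subst this
    exact ⟨h1, h2, h3⟩
  · rintro ⟨h1, h2, h3⟩
    exact ⟨h1, h3, y, h2, h3, by simp⟩

/-- host sets of size at most `N ^ (1/h + δ)` -/
theorem thin_power (b w h : ℕ) (hb : 2 ≤ b) (hh : 2 ≤ h) :
    ∃ δ : ℝ, 0 < δ ∧ ∀ (A S : Set ℕ) (c : ℝ), Recognised b w S → 0 < c →
      (∀ M : ℕ, ∃ N ≥ M, c * (N : ℝ) ^ (1 / h : ℝ) ≤ ({x | x ∈ A ∧ x ∈ S ∧ x ≤ N} : Set ℕ).ncard ∧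
        (({x | x ∈ S ∧ x ≤ N} : Set ℕ).ncard : ℝ) ≤ (N : ℝ) ^ (1 / h + δ : ℝ)) →
      ∀ M : ℕ, ∃ n ≥ M, (n : ℝ) ^ δ ≤ (msets A h n).ncard := by
  have hh0 : (0 : ℝ) < h := by exact_mod_cast (show 0 < h by omega)
  obtain ⟨δ₀, hδ₀, C, hC, H⟩ := power_saving b w hb (1 / (2 * h)) (by positivity)
  set δ := min (δ₀ / 4) (1 / (8 * h) : ℝ) with hδ
  have hδ1 : δ ≤ δ₀ / 4 := min_le_left _ _
  have hδ2 : δ ≤ 1 / (8 * h) := min_le_right _ _
  have hδ0 : 0 < δ := lt_min (by positivity) (by positivity)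
  refine ⟨δ, hδ0, ?_⟩
  intro A S c hS hc hinf M₀
  by_contra hcon
  push Not at hcon
  set R := ∑ n ∈ range M₀, (msets A h n).ncard with hR
  set C' : ℝ := C * h.factorial * (R + 1 + (h : ℝ) ^ δ) with hC'
  have hev := ev_small C' c (δ₀ / 2) (3 / (8 * h)) hc (by positivity) (by positivity)
  obtain ⟨M, hM⟩ := eventually_atTop.1 hev
  obtain ⟨N, hN, h1, h2⟩ := hinf (max M 1)
  have hN1 : 1 ≤ N := le_trans (le_max_right _ _) hN
  have hNM : M ≤ N := le_trans (le_max_left _ _) hN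
  have hNr : (1 : ℝ) ≤ N := by exact_mod_cast hN1
  have hN0 : (0 : ℝ) < N := by linarith
  set K := R + ⌈((h * N : ℕ) : ℝ) ^ δ⌉₊ with hK
  have hKr : ∀ n ≤ h * N, (msets A h n).ncard ≤ K := by
    intro n hn
    rcases lt_or_ge n M₀ with h3 | h3
    · exact (single_le_sum (f := fun n => (msets A h n).ncard) (fun _ _ => Nat.zero_le _)
        (mem_range.2 h3)).trans (Nat.le_add_right _ _)
    · have h4 := hcon n h3
      have h5 : ((msets A h n).ncard : ℝ) ≤ (⌈((h * N : ℕ) : ℝ) ^ δ⌉₊ : ℝ) :=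
        h4.le.trans ((Real.rpow_le_rpow (Nat.cast_nonneg _) (by exact_mod_cast hn) hδ0.le).trans
          (Nat.le_ceil _))
      have h6 : (msets A h n).ncard ≤ ⌈((h * N : ℕ) : ℝ) ^ δ⌉₊ := by exact_mod_cast h5
      omega
  have h3 := H h K A S (fun x => x) 0 N N hh hKr hS (isAdditive_id b) hN1
  rw [inter_eq] at h3
  have h4 := hM N hNM
  have hNδ : 1 ≤ (N : ℝ) ^ δ := Real.one_le_rpow hNr hδ0.le
  have hKN : (K : ℝ) ≤ (R + 1 + (h : ℝ) ^ δ) * (N : ℝ) ^ δ := by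
    have h6 : ((h * N : ℕ) : ℝ) ^ δ = (h : ℝ) ^ δ * (N : ℝ) ^ δ := by
      rw [Nat.cast_mul]
      exact Real.mul_rpow hh0.le hN0.le
    have h5 : (⌈((h * N : ℕ) : ℝ) ^ δ⌉₊ : ℝ) ≤ (h : ℝ) ^ δ * (N : ℝ) ^ δ + 1 := by
      rw [← h6]
      exact (Nat.ceil_lt_add_one (by positivity)).le
    rw [hK, Nat.cast_add]
    have h7 : (0 : ℝ) ≤ R := Nat.cast_nonneg _
    nlinarith
  have hW : (0 : ℝ) ≤ ({x | x ∈ S ∧ x ≤ N} : Set ℕ).ncard := Nat.cast_nonneg _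
  have h5 : (N : ℝ) ^ δ * ((N : ℝ) ^ (-δ₀) * ({x | x ∈ S ∧ x ≤ N} : Set ℕ).ncard) ≤
      (N : ℝ) ^ (-(δ₀ / 2)) * (N : ℝ) ^ (1 / h : ℝ) := by
    refine (mul_le_mul_of_nonneg_left (mul_le_mul_of_nonneg_left h2 (by positivity))
      (by positivity)).trans ?_
    rw [← Real.rpow_add hN0, ← Real.rpow_add hN0, ← Real.rpow_add hN0]
    exact Real.rpow_le_rpow_of_exponent_le hNr (by linarith)
  have h6 : (N : ℝ) ^ δ * (N : ℝ) ^ (1 / (2 * h) : ℝ) ≤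
      (N : ℝ) ^ (-(3 / (8 * h)) : ℝ) * (N : ℝ) ^ (1 / h : ℝ) := by
    rw [← Real.rpow_add hN0, ← Real.rpow_add hN0]
    refine Real.rpow_le_rpow_of_exponent_le hNr ?_
    have h8 : (1 / (8 * h) : ℝ) + 1 / (2 * h) = -(3 / (8 * h)) + 1 / h := by
      field_simp
      ring
    linarith
  have h7 : (K : ℝ) * ((N : ℝ) ^ (-δ₀) * ({x | x ∈ S ∧ x ≤ N} : Set ℕ).ncard +
      (N : ℝ) ^ (1 / (2 * h) : ℝ)) ≤ (R + 1 + (h : ℝ) ^ δ) *
        (((N : ℝ) ^ (-(δ₀ / 2)) + (N : ℝ) ^ (-(3 / (8 * h)) : ℝ)) * (N : ℝ) ^ (1 / h : ℝ)) := by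
    have h8 : (0 : ℝ) ≤ (N : ℝ) ^ (-δ₀) * ({x | x ∈ S ∧ x ≤ N} : Set ℕ).ncard +
        (N : ℝ) ^ (1 / (2 * h) : ℝ) := by positivity
    have h9 : (0 : ℝ) ≤ R + 1 + (h : ℝ) ^ δ := by positivity
    calc _ ≤ (R + 1 + (h : ℝ) ^ δ) * (N : ℝ) ^ δ *
          ((N : ℝ) ^ (-δ₀) * ({x | x ∈ S ∧ x ≤ N} : Set ℕ).ncard +
          (N : ℝ) ^ (1 / (2 * h) : ℝ)) := mul_le_mul_of_nonneg_right hKN h8
      _ = (R + 1 + (h : ℝ) ^ δ) *
          ((N : ℝ) ^ δ * ((N : ℝ) ^ (-δ₀) * ({x | x ∈ S ∧ x ≤ N} : Set ℕ).ncard) +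
          (N : ℝ) ^ δ * (N : ℝ) ^ (1 / (2 * h) : ℝ)) := by ring
      _ ≤ _ := by
          refine mul_le_mul_of_nonneg_left ?_ h9
          rw [add_mul]
          exact add_le_add h5 h6
  have h8 : 0 < (N : ℝ) ^ (1 / h : ℝ) := by positivity
  have h9 : c * (N : ℝ) ^ (1 / h : ℝ) ≤ C' * (((N : ℝ) ^ (-(δ₀ / 2)) +
      (N : ℝ) ^ (-(3 / (8 * h)) : ℝ)) * (N : ℝ) ^ (1 / h : ℝ)) := by
    refine h1.trans (h3.trans ?_)
    rw [hC', mul_assoc (C * h.factorial) (K : ℝ), mul_assoc (C * h.factorial)]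
    exact mul_le_mul_of_nonneg_left h7 (by positivity)
  have h10 : C' * (((N : ℝ) ^ (-(δ₀ / 2)) + (N : ℝ) ^ (-(3 / (8 * h)) : ℝ)) *
      (N : ℝ) ^ (1 / h : ℝ)) < c * (N : ℝ) ^ (1 / h : ℝ) := by
    rw [← mul_assoc]
    exact mul_lt_mul_of_pos_right h4 h8
  linarith

/-- the counting function of an asymptotic basis of order `h` -/
theorem basis_count (A : Set ℕ) (h n₀ : ℕ) (hA : ∀ n ≥ n₀, (msets A h n).Nonempty) (N : ℕ) :
    N + 1 ≤ n₀ + ({x | x ∈ A ∧ x ≤ N} : Set ℕ).ncard ^ h := by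
  classical
  have hfin : ({x | x ∈ A ∧ x ≤ N} : Set ℕ).Finite := (Set.finite_Iic N).subset fun x hx => hx.2
  set X := hfin.toFinset with hX
  rw [Set.ncard_eq_toFinset_card _ hfin, ← hX]
  have h1 : (Finset.Icc n₀ N) ⊆
      (univ : Finset (Fin h → X)).image (fun v => ∑ i, (v i : ℕ)) := by
    intro n hn
    rw [mem_Icc] at hn
    obtain ⟨s, hs1, hs2, hs3⟩ := hA n hn.1
    obtain ⟨l, rfl⟩ := Quot.exists_rep s
    change Multiset.card (l : Multiset ℕ) = h at hs1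
    change Multiset.sum (l : Multiset ℕ) = n at hs3
    rw [Multiset.coe_card] at hs1
    rw [Multiset.sum_coe] at hs3
    subst hs1
    rw [mem_image]
    refine ⟨fun i => ⟨l.get i, ?_⟩, mem_univ _, ?_⟩
    · rw [hX, Set.Finite.mem_toFinset]
      refine ⟨hs2 _ (by exact List.get_mem l i), ?_⟩
      have : l.get i ≤ l.sum := List.le_sum_of_mem (List.get_mem l i)
      omega
    · simp only [List.get_eq_getElem]
      rw [← hs3]
      exact (Fin.sum_univ_getElem l)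
  have h2 := (card_le_card h1).trans card_image_le
  rw [Nat.card_Icc, card_univ, Fintype.card_fun, Fintype.card_fin, Fintype.card_coe] at h2
  omega

end Pool.Agent.V11226.ET

namespace Pool.Agent.V11226.ET

/-- asymptotic bases a positive proportion of whose elements lies in a thin automatic set -/
theorem basis_power (b w h : ℕ) (hb : 2 ≤ b) (hh : 2 ≤ h) :
    ∃ δ : ℝ, 0 < δ ∧ ∀ (A S : Set ℕ) (κ : ℝ) (n₀ : ℕ), (∀ n ≥ n₀, (msets A h n).Nonempty) →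
      Recognised b w S → 0 < κ →
      (∀ M : ℕ, ∃ N ≥ M,
        (({x | x ∈ S ∧ x ≤ N} : Set ℕ).ncard : ℝ) ≤ (N : ℝ) ^ (1 / h + δ : ℝ) ∧
        κ * ({x | x ∈ A ∧ x ≤ N} : Set ℕ).ncard ≤ ({x | x ∈ A ∧ x ∈ S ∧ x ≤ N} : Set ℕ).ncard) →
      ∀ M : ℕ, ∃ n ≥ M, (n : ℝ) ^ δ ≤ (msets A h n).ncard := by
  obtain ⟨δ, hδ, H⟩ := thin_power b w h hb hh
  refine ⟨δ, hδ, ?_⟩
  intro A S κ n₀ hA hS hκ hinf
  refine H A S (κ * 0.7) hS (by positivity) ?_
  intro M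
  obtain ⟨N, hN, h1, h2⟩ := hinf (max M (2 * n₀))
  refine ⟨N, le_trans (le_max_left _ _) hN, ?_, h1⟩
  have hN2 : 2 * n₀ ≤ N := le_trans (le_max_right _ _) hN
  have h3 := basis_count A h n₀ hA N
  set a := ({x | x ∈ A ∧ x ≤ N} : Set ℕ).ncard with ha
  have h4 : (N : ℝ) / 2 ≤ (a : ℝ) ^ h := by
    have h5 : (N : ℝ) + 1 ≤ n₀ + (a : ℝ) ^ h := by exact_mod_cast h3
    have h6 : 2 * (n₀ : ℝ) ≤ N := by exact_mod_cast hN2
    linarith
  have h7 : (0.7 : ℝ) ^ h ≤ 1 / 2 := by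
    calc (0.7 : ℝ) ^ h ≤ 0.7 ^ 2 := pow_le_pow_of_le_one (by norm_num) (by norm_num) hh
      _ ≤ 1 / 2 := by norm_num
  have hN0 : (0 : ℝ) ≤ N := Nat.cast_nonneg N
  have h8 : (0.7 * (N : ℝ) ^ (1 / h : ℝ)) ^ h ≤ (a : ℝ) ^ h := by
    rw [mul_pow, one_div, Real.rpow_inv_natCast_pow hN0 (by omega)]
    nlinarith
  have h9 : 0.7 * (N : ℝ) ^ (1 / h : ℝ) ≤ a :=
    le_of_pow_le_pow_left₀ (by omega) (Nat.cast_nonneg _) h8
  calc κ * 0.7 * (N : ℝ) ^ (1 / h : ℝ) = κ * (0.7 * (N : ℝ) ^ (1 / h : ℝ)) := by ring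
    _ ≤ κ * a := mul_le_mul_of_nonneg_left h9 hκ.le
    _ ≤ _ := h2

/-! ## Order two, ordered representations -/

/-- the number of ordered representations -/
noncomputable def rep (A : Set ℕ) (n : ℕ) : ℕ :=
  {p : ℕ × ℕ | p.1 ∈ A ∧ p.2 ∈ A ∧ p.1 + p.2 = n}.ncard

theorem pairs_finite (A : Set ℕ) (n : ℕ) :
    {p : ℕ × ℕ | p.1 ∈ A ∧ p.2 ∈ A ∧ p.1 + p.2 = n}.Finite := by
  refine ((Set.finite_Iic n).prod (Set.finite_Iic n)).subset ?_
  rintro ⟨a, c⟩ ⟨_, _, h⟩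
  simp only at h
  exact ⟨by simp only [Set.mem_Iic]; omega, by simp only [Set.mem_Iic]; omega⟩

theorem msets_two_le (A : Set ℕ) (n : ℕ) : (msets A 2 n).ncard ≤ rep A n := by
  have h1 : msets A 2 n ⊆ (fun p : ℕ × ℕ => ({p.1, p.2} : Multiset ℕ)) ''
      {p : ℕ × ℕ | p.1 ∈ A ∧ p.2 ∈ A ∧ p.1 + p.2 = n} := by
    rintro s ⟨h1, h2, h3⟩
    obtain ⟨a, c, rfl⟩ := Multiset.card_eq_two.mp h1
    refine ⟨(a, c), ⟨h2 a (by simp), h2 c (by simp), ?_⟩, rfl⟩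
    simpa using h3
  exact (Set.ncard_le_ncard h1 ((pairs_finite A n).image _)).trans
    (Set.ncard_image_le (pairs_finite A n))

theorem nonempty_of_rep {A : Set ℕ} {n : ℕ} (h : 1 ≤ rep A n) : (msets A 2 n).Nonempty := by
  have h1 : {p : ℕ × ℕ | p.1 ∈ A ∧ p.2 ∈ A ∧ p.1 + p.2 = n}.Nonempty := by
    by_contra h0
    rw [Set.not_nonempty_iff_eq_empty] at h0
    unfold rep at h
    rw [h0, Set.ncard_empty] at h
    omega
  obtain ⟨⟨a, c⟩, h2, h3, h4⟩ := h1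
  exact ⟨{a, c}, by simp, by
    intro x hx
    simp only [Multiset.insert_eq_cons, Multiset.mem_cons, Multiset.mem_singleton] at hx
    rcases hx with rfl | rfl
    · exact h2
    · exact h3, by simpa using h4⟩

theorem rep_two_le {A : Set ℕ} {n : ℕ} : rep A n ≤ 2 * (msets A 2 n).ncard := by
  classical
  unfold rep
  rw [Set.ncard_eq_toFinset_card _ (pairs_finite A n),
    Set.ncard_eq_toFinset_card _ (msets_finite A 2 n)]
  set P := (pairs_finite A n).toFinset with hP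
  have hmem : ∀ p : ℕ × ℕ, p ∈ P ↔ p.1 ∈ A ∧ p.2 ∈ A ∧ p.1 + p.2 = n := by
    intro p
    rw [hP, Set.Finite.mem_toFinset]
    exact Iff.rfl
  refine (card_le_mul_card_image (f := fun p : ℕ × ℕ => ({p.1, p.2} : Multiset ℕ)) P 2 ?_).trans
    (Nat.mul_le_mul_left 2 (card_le_card ?_))
  · intro s hs
    rw [mem_image] at hs
    obtain ⟨⟨a, c⟩, h1, rfl⟩ := hs
    have h2 : (P.filter fun p : ℕ × ℕ => ({p.1, p.2} : Multiset ℕ) = {a, c}) ⊆
        {((a, c) : ℕ × ℕ), (c, a)} := by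
      rintro ⟨x, y⟩ hxy
      rw [mem_filter] at hxy
      have h3 := hxy.2
      simp only [Multiset.insert_eq_cons] at h3
      rw [Multiset.cons_eq_cons] at h3
      rw [mem_insert, mem_singleton]
      rcases h3 with ⟨rfl, h4⟩ | ⟨-, cs, h4, h5⟩
      · left
        rw [Multiset.singleton_inj] at h4
        rw [h4]
      · right
        have h6 : cs = 0 := by
          have := congrArg Multiset.card h4
          simp at this
          exact this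
        subst h6
        simp at h4 h5
        rw [h4, h5]
    exact (card_le_card h2).trans card_le_two
  · intro s hs
    rw [mem_image] at hs
    obtain ⟨⟨a, c⟩, h1, rfl⟩ := hs
    rw [hmem] at h1
    rw [Set.Finite.mem_toFinset]
    exact ⟨by simp, by
      intro x hx
      simp only [Multiset.insert_eq_cons, Multiset.mem_cons, Multiset.mem_singleton] at hx
      rcases hx with rfl | rfl
      · exact h1.1
      · exact h1.2.1, by simpa using h1.2.2⟩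

/-- a set with `a_n ≤ C n ^ 2` has at least `c √N` elements up to `N`, for large `N` -/
theorem count_of_nth {A : Set ℕ} (hA : A.Infinite) {C : ℕ} (hC : 1 ≤ C)
    (hn : ∀ n, Nat.nth (fun a => a ∈ A) n ≤ C * (n + 1) ^ 2) (N : ℕ) (hN : 4 * C ≤ N) :
    Real.sqrt N ≤ 2 * Real.sqrt C * ({x | x ∈ A ∧ x ≤ N} : Set ℕ).ncard := by
  classical
  set m := Nat.sqrt (N / C) with hm
  have h1 : ∀ n < m, Nat.nth (fun a => a ∈ A) n ≤ N := by
    intro n hnm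
    refine (hn n).trans ?_
    have h2 : (n + 1) ^ 2 ≤ N / C := by
      have h3 : m * m ≤ N / C := Nat.sqrt_le _
      have h4 : (n + 1) * (n + 1) ≤ m * m := Nat.mul_le_mul hnm hnm
      calc (n + 1) ^ 2 = (n + 1) * (n + 1) := by ring
        _ ≤ _ := h4.trans h3
    calc C * (n + 1) ^ 2 ≤ C * (N / C) := Nat.mul_le_mul_left _ h2
      _ ≤ N := Nat.mul_div_le N C
  have hfin : ({x | x ∈ A ∧ x ≤ N} : Set ℕ).Finite := (Set.finite_Iic N).subset fun x hx => hx.2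
  have hinf : {a | a ∈ A}.Infinite := hA
  have h5 : m ≤ ({x | x ∈ A ∧ x ≤ N} : Set ℕ).ncard := by
    have h6 : ((range m).image (Nat.nth fun a => a ∈ A) : Finset ℕ).card = m := by
      rw [card_image_of_injective _ (Nat.nth_injective hinf), card_range]
    rw [← h6, ← Set.ncard_coe_finset]
    refine Set.ncard_le_ncard ?_ hfin
    intro x hx
    rw [Finset.mem_coe, mem_image] at hx
    obtain ⟨n, hnm, rfl⟩ := hx
    exact ⟨Nat.nth_mem_of_infinite hinf n, h1 n (mem_range.1 hnm)⟩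
  have hCr : (1 : ℝ) ≤ C := by exact_mod_cast hC
  have h7 : (N : ℝ) < C * ((m : ℝ) + 1) ^ 2 := by
    have h8 : N / C < (m + 1) * (m + 1) := Nat.lt_succ_sqrt _
    have h9 : N < C * ((m + 1) * (m + 1)) := by
      rw [Nat.div_lt_iff_lt_mul (by omega)] at h8
      linarith
    have h10 : (N : ℝ) < C * (((m : ℝ) + 1) * ((m : ℝ) + 1)) := by exact_mod_cast h9
    rw [sq]; exact h10
  have hm1 : 1 ≤ m := by
    rw [hm, Nat.le_sqrt]
    rw [Nat.le_div_iff_mul_le (by omega)]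
    omega
  have hm1r : (1 : ℝ) ≤ m := by exact_mod_cast hm1
  have h11 : Real.sqrt N ≤ Real.sqrt C * ((m : ℝ) + 1) := by
    rw [← Real.sqrt_sq (show (0 : ℝ) ≤ (m : ℝ) + 1 by positivity),
      ← Real.sqrt_mul (by positivity)]
    exact Real.sqrt_le_sqrt h7.le
  have h12 : (m : ℝ) ≤ ({x | x ∈ A ∧ x ≤ N} : Set ℕ).ncard := by exact_mod_cast h5
  have hs : 0 ≤ Real.sqrt C := Real.sqrt_nonneg _
  calc Real.sqrt N ≤ Real.sqrt C * ((m : ℝ) + 1) := h11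
    _ ≤ Real.sqrt C * (2 * m) := mul_le_mul_of_nonneg_left (by linarith) hs
    _ ≤ Real.sqrt C * (2 * ({x | x ∈ A ∧ x ≤ N} : Set ℕ).ncard) :=
        mul_le_mul_of_nonneg_left (by linarith) hs
    _ = _ := by ring

end Pool.Agent.V11226.ET
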