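import Mathlib

/-!
# Sets with bounded representation function of order `h` and sumsets

If `X ⊆ A` is contained in `S_1 + … + S_m` then the number of multisets of `h` elements of `X` is at
most `K` times the product of the numbers of multisets of `h` elements of the `S_i`.
-/

set_option autoImplicit false

open Finset

namespace Pool.Agent.V11226.ET

/-- the multisets of `h` elements of `A` with sum `n` -/
def msets (A : Set ℕ) (h n : ℕ) : Set (Multiset ℕ) :=
  {s | Multiset.card s = h ∧ (∀ a ∈ s, a ∈ A) ∧ s.sum = n}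

theorem msets_finite (A : Set ℕ) (h n : ℕ) : (msets A h n).Finite := by
  classical
  refine (((Finset.range (n + 1)).sym h).image (fun s : Sym ℕ h => (s : Multiset ℕ))).finite_toSet.subset ?_
  rintro s ⟨h1, -, h3⟩
  rw [Finset.mem_coe, mem_image]
  refine ⟨(⟨s, h1⟩ : Sym ℕ h), ?_, rfl⟩
  refine Finset.mem_sym_iff.2 ?_
  intro a ha
  replace ha : a ∈ s := ha
  have h4 : a ≤ s.sum := Multiset.le_sum_of_mem ha
  rw [mem_range]
  omega

theorem sum_map_sum {α : Type*} {ι : Type*} [Fintype ι] (s : Multiset α) (f : α → ι → ℕ) :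
    (s.map fun x => ∑ i, f x i).sum = ∑ i, (s.map fun x => f x i).sum := by
  induction s using Multiset.induction_on with
  | empty => simp
  | cons a s ih => simp only [Multiset.map_cons, Multiset.sum_cons, ih, Finset.sum_add_distrib]

theorem grid {ι : Type*} [Fintype ι] {A : Set ℕ} {h K Y : ℕ}
    (hr : ∀ n ≤ h * Y, (msets A h n).ncard ≤ K) (S : ι → Finset ℕ) (X : Finset ℕ)
    (hX : ∀ x ∈ X, x ∈ A ∧ x ≤ Y) (hS : ∀ x ∈ X, ∃ s : ι → ℕ, (∀ i, s i ∈ S i) ∧ ∑ i, s i = x) :
    Nat.multichoose X.card h ≤ K * ∏ i, Nat.multichoose (S i).card h := by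
  classical
  choose! τ h1 h2 using hS
  let T : X → (i : ι) → S i := fun x i => ⟨τ x i, h1 x x.2 i⟩
  let Φ : Sym X h → (∀ i, Sym (S i) h) := fun s i => s.map (fun x => T x i)
  have e1 : (univ : Finset (Sym X h)).card = Nat.multichoose X.card h := by
    rw [Finset.card_univ, Sym.card_sym_eq_multichoose, Fintype.card_coe]
  have e2 : Fintype.card (∀ i, Sym (S i) h) = ∏ i, Nat.multichoose (S i).card h := by
    rw [Fintype.card_pi]
    refine prod_congr rfl fun i _ => ?_
    rw [Sym.card_sym_eq_multichoose, Fintype.card_coe]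
  rw [← e1, ← e2]
  refine (card_le_mul_card_image (f := Φ) univ K ?_).trans
    (Nat.mul_le_mul_left K (card_le_univ _))
  intro y hy
  let n := ∑ i, (Multiset.map (fun z : S i => z.1) (y i).1).sum
  let g : Sym X h → Multiset ℕ := fun s => Multiset.map (fun z : X => z.1) s.1
  have hg : Function.Injective g := by
    intro s t hst
    have h5 : s.1 = t.1 :=
      Multiset.map_injective Subtype.val_injective hst
    exact Subtype.ext h5
  have hkey : ∀ s : Sym X h, Φ s = y → (g s).sum = n := by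
    intro s hs
    have h6 : g s = Multiset.map (fun x : X => ∑ i, τ x.1 i) s.1 := by
      refine Multiset.map_congr rfl fun x _ => ?_
      exact (h2 x.1 x.2).symm
    rw [h6, sum_map_sum]
    refine sum_congr rfl fun i _ => ?_
    have h7 : (y i).1 = Multiset.map (fun x => T x i) s.1 := by
      rw [← hs]
      rfl
    rw [h7, Multiset.map_map]
    rfl
  have hn : n ≤ h * Y := by
    obtain ⟨s, -, hs⟩ := mem_image.1 hy
    rw [← hkey s hs]
    have h8 : (g s).sum ≤ Multiset.card (g s) • Y := by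
      refine Multiset.sum_le_card_nsmul (g s) Y fun a ha => ?_
      obtain ⟨x, -, rfl⟩ := Multiset.mem_map.1 ha
      exact (hX x.1 x.2).2
    have h9 : Multiset.card (g s) = h := by
      show Multiset.card (Multiset.map (fun z : X => z.1) s.1) = h
      rw [Multiset.card_map]
      exact s.2
    rw [h9, smul_eq_mul] at h8
    exact h8
  rw [← Finset.card_image_of_injective _ hg, ← Set.ncard_coe_finset]
  refine (Set.ncard_le_ncard ?_ (msets_finite A h n)).trans (hr n hn)
  intro z hz
  rw [Finset.mem_coe, mem_image] at hz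
  obtain ⟨s, hs, rfl⟩ := hz
  rw [mem_filter] at hs
  refine ⟨?_, ?_, ?_⟩
  · show Multiset.card (Multiset.map (fun z : X => z.1) s.1) = h
    rw [Multiset.card_map]
    exact s.2
  · intro a ha
    obtain ⟨x, -, rfl⟩ := Multiset.mem_map.1 ha
    exact (hX x.1 x.2).1
  · exact hkey s hs.2

theorem pow_le_multichoose (s h : ℕ) : s ^ h ≤ h.factorial * Nat.multichoose s h := by
  cases s with
  | zero =>
    cases h with
    | zero => simp
    | succ h => simp
  | succ s =>
    have h1 := Nat.pow_succ_le_ascFactorial (s + 1) h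
    have h2 := Nat.ascFactorial_eq_factorial_mul_choose s h
    rw [h2] at h1
    rw [Nat.multichoose_eq]
    have h3 : s + 1 + h - 1 = s + h := by omega
    rw [h3]
    exact h1

theorem multichoose_step (s h : ℕ) (hs : 1 ≤ s) :
    (h + 1) * Nat.multichoose s (h + 1) = (s + h) * Nat.multichoose s h := by
  obtain ⟨t, rfl⟩ : ∃ t, s = t + 1 := ⟨s - 1, by omega⟩
  rw [Nat.multichoose_eq, Nat.multichoose_eq]
  have h3 : t + 1 + (h + 1) - 1 = t + h + 1 := by omega
  have h4 : t + 1 + h - 1 = t + h := by omega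
  rw [h3, h4]
  have h5 := Nat.add_one_mul_choose_eq (t + h) h
  have h7 : t + 1 + h = t + h + 1 := by omega
  rw [h7, h5]
  exact Nat.mul_comm _ _

theorem multichoose_le (s : ℕ) (hs : 2 ≤ s) (h : ℕ) :
    2 ^ h * Nat.multichoose s h ≤ (h + 1) * s ^ h := by
  induction h with
  | zero => simp
  | succ h ih =>
    have h1 := multichoose_step s h (by omega)
    have h2 : 2 * (s + h) ≤ (h + 2) * s := by nlinarith
    have h3 : (h + 1) * (2 ^ (h + 1) * Nat.multichoose s (h + 1)) ≤
        (h + 1) * ((h + 1 + 1) * s ^ (h + 1)) := by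
      calc (h + 1) * (2 ^ (h + 1) * Nat.multichoose s (h + 1))
          = 2 * (s + h) * (2 ^ h * Nat.multichoose s h) := by
            rw [pow_succ]
            calc (h + 1) * (2 ^ h * 2 * Nat.multichoose s (h + 1))
                = 2 ^ h * 2 * ((h + 1) * Nat.multichoose s (h + 1)) := by ring
              _ = 2 ^ h * 2 * ((s + h) * Nat.multichoose s h) := by rw [h1]
              _ = _ := by ring
        _ ≤ ((h + 2) * s) * ((h + 1) * s ^ h) := Nat.mul_le_mul h2 ih
        _ = (h + 1) * ((h + 1 + 1) * s ^ (h + 1)) := by ring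
    exact Nat.le_of_mul_le_mul_left h3 (by omega)

theorem four_seven (h : ℕ) (hh : 2 ≤ h) : (h + 1) * 4 ^ h ≤ 7 ^ h := by
  induction h, hh using Nat.le_induction with
  | base => norm_num
  | succ h hh ih =>
    calc (h + 1 + 1) * 4 ^ (h + 1) = (4 * (h + 2)) * 4 ^ h := by ring
      _ ≤ (7 * (h + 1)) * 4 ^ h := Nat.mul_le_mul_right _ (by omega)
      _ = 7 * ((h + 1) * 4 ^ h) := by ring
      _ ≤ 7 * 7 ^ h := Nat.mul_le_mul_left _ ih
      _ = 7 ^ (h + 1) := by ring

/-- the weight of a summand set of size `s` -/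
noncomputable def g (s : ℕ) : ℝ := if 2 ≤ s then 7 / 8 * s else s

theorem g_nonneg (s : ℕ) : 0 ≤ g s := by
  unfold g; split_ifs <;> positivity

theorem g_le (s : ℕ) : g s ≤ s := by
  unfold g
  have : (0 : ℝ) ≤ s := Nat.cast_nonneg s
  split_ifs <;> linarith

theorem g_mono {s t : ℕ} (hst : s ≤ t) : g s ≤ g t := by
  unfold g
  have h0 : (s : ℝ) ≤ t := by exact_mod_cast hst
  split_ifs with h1 h2 h2
  · linarith
  · omega
  · have h3 : (s : ℝ) ≤ 1 := by exact_mod_cast (show s ≤ 1 by omega)
    have h4 : (2 : ℝ) ≤ t := by exact_mod_cast h2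
    linarith
  · exact h0

theorem multichoose_le_g (h : ℕ) (hh : 2 ≤ h) (s : ℕ) :
    (Nat.multichoose s h : ℝ) ≤ g s ^ h := by
  unfold g
  split_ifs with hs
  · have h1 := multichoose_le s hs h
    have h2 := four_seven h hh
    have h3 : 8 ^ h * Nat.multichoose s h ≤ 7 ^ h * s ^ h := by
      calc 8 ^ h * Nat.multichoose s h = 4 ^ h * (2 ^ h * Nat.multichoose s h) := by
            rw [← mul_assoc, ← mul_pow]
            norm_num
        _ ≤ 4 ^ h * ((h + 1) * s ^ h) := Nat.mul_le_mul_left _ h1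
        _ = (h + 1) * 4 ^ h * s ^ h := by ring
        _ ≤ 7 ^ h * s ^ h := Nat.mul_le_mul_right _ h2
    have h4 : (8 : ℝ) ^ h * Nat.multichoose s h ≤ 7 ^ h * s ^ h := by exact_mod_cast h3
    have h5 : (0 : ℝ) < 8 ^ h := by positivity
    rw [mul_pow, div_pow, div_mul_eq_mul_div, le_div_iff₀ h5]
    linarith
  · have hs' : s = 0 ∨ s = 1 := by omega
    rcases hs' with rfl | rfl
    · obtain ⟨k, rfl⟩ : ∃ k, h = k + 1 := ⟨h - 1, by omega⟩
      simp
    · simp

/-- **A set with bounded representation function has few elements in a sum of many sets.** -/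
theorem grid_real {ι : Type*} [Fintype ι] {A : Set ℕ} {h K Y : ℕ} (hh : 2 ≤ h)
    (hr : ∀ n ≤ h * Y, (msets A h n).ncard ≤ K) (S : ι → Finset ℕ) (X : Finset ℕ)
    (hX : ∀ x ∈ X, x ∈ A ∧ x ≤ Y) (hS : ∀ x ∈ X, ∃ s : ι → ℕ, (∀ i, s i ∈ S i) ∧ ∑ i, s i = x) :
    (X.card : ℝ) ≤ h.factorial * K * ∏ i, g (S i).card := by
  have h1 := grid hr S X hX hS
  have h2 := pow_le_multichoose X.card h
  have h3 : (X.card : ℝ) ^ h ≤ (h.factorial * K * ∏ i, g (S i).card) ^ h := by
    calc (X.card : ℝ) ^ h ≤ h.factorial * Nat.multichoose X.card h := by exact_mod_cast h2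
      _ ≤ h.factorial * (K * ∏ i, (Nat.multichoose (S i).card h : ℝ)) := by
          refine mul_le_mul_of_nonneg_left ?_ (by positivity)
          exact_mod_cast h1
      _ ≤ h.factorial * (K * ∏ i, g (S i).card ^ h) := by
          refine mul_le_mul_of_nonneg_left (mul_le_mul_of_nonneg_left ?_ (by positivity))
            (by positivity)
          exact prod_le_prod (fun i _ => by positivity) fun i _ => multichoose_le_g h hh _
      _ = (h.factorial * K) * (∏ i, g (S i).card) ^ h := by rw [prod_pow]; ring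
      _ ≤ (h.factorial * K) ^ h * (∏ i, g (S i).card) ^ h := by
          refine mul_le_mul_of_nonneg_right ?_ (pow_nonneg (prod_nonneg fun i _ => g_nonneg _) _)
          have h4 : h.factorial * K ≤ (h.factorial * K) ^ h := by
            rcases Nat.eq_zero_or_pos (h.factorial * K) with h0 | h0
            · rw [h0]; exact Nat.zero_le _
            · exact Nat.le_self_pow (by omega) _
          exact_mod_cast h4
      _ = _ := by rw [mul_pow (_ * _ : ℝ)]
  exact le_of_pow_le_pow_left₀ (by omega)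
    (mul_nonneg (by positivity) (prod_nonneg fun i _ => g_nonneg _)) h3

/-- The same for subsets of a union of sums. -/
theorem cover {J ι : Type*} [Fintype ι] {A : Set ℕ} {h K Y : ℕ} (hh : 2 ≤ h)
    (hr : ∀ n ≤ h * Y, (msets A h n).ncard ≤ K) (P : Finset J) (S : J → ι → Finset ℕ)
    (X : Finset ℕ) (hX : ∀ x ∈ X, x ∈ A ∧ x ≤ Y)
    (hS : ∀ x ∈ X, ∃ j ∈ P, ∃ s : ι → ℕ, (∀ i, s i ∈ S j i) ∧ ∑ i, s i = x) :
    (X.card : ℝ) ≤ h.factorial * K * ∑ j ∈ P, ∏ i, g (S j i).card := by
  classical
  let Y : J → Finset ℕ := fun j => X.filter fun x => ∃ s : ι → ℕ, (∀ i, s i ∈ S j i) ∧ ∑ i, s i = x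
  have h1 : X ⊆ P.biUnion Y := by
    intro x hx
    obtain ⟨j, hj, hs⟩ := hS x hx
    exact mem_biUnion.2 ⟨j, hj, mem_filter.2 ⟨hx, hs⟩⟩
  have h2 : X.card ≤ ∑ j ∈ P, (Y j).card := (card_le_card h1).trans card_biUnion_le
  calc (X.card : ℝ) ≤ ∑ j ∈ P, ((Y j).card : ℝ) := by exact_mod_cast h2
    _ ≤ ∑ j ∈ P, h.factorial * K * ∏ i, g (S j i).card := by
        refine sum_le_sum fun j _ => ?_
        exact grid_real hh hr (S j) (Y j) (fun x hx => hX x (mem_filter.1 hx).1)
          (fun x hx => (mem_filter.1 hx).2)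
    _ = _ := by rw [mul_sum]

end Pool.Agent.V11226.ET
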