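import Pool.Agent.V11226.ET.Auto

/-!
# Power saving for sets with bounded representation function in automatic host sets
-/

set_option autoImplicit false

open Finset

namespace Pool.Agent.V11226.ET

theorem power_saving (b w : ℕ) (hb : 2 ≤ b) (ε : ℝ) (hε : 0 < ε) :
    ∃ δ : ℝ, 0 < δ ∧ ∃ C : ℝ, 0 < C ∧ ∀ (h K : ℕ) (A S : Set ℕ) (f : ℕ → ℕ) (t N Y : ℕ), 2 ≤ h →
      (∀ n ≤ h * Y, (msets A h n).ncard ≤ K) → Recognised b w S → IsAdditive b f → 1 ≤ N →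
      (({y | y ∈ A ∧ y ≤ Y ∧ ∃ x ∈ S, x ≤ N ∧ t + f x = y} : Set ℕ).ncard : ℝ) ≤
        C * h.factorial * K *
          ((N : ℝ) ^ (-δ) * ({x | x ∈ S ∧ x ≤ N} : Set ℕ).ncard + (N : ℝ) ^ ε) := by
  have hb1 : (1 : ℝ) < b := by exact_mod_cast (show 1 < b by omega)
  have hb0 : (0 : ℝ) < b := by linarith
  have h1 : 1 < (b : ℝ) ^ (ε / 4) := Real.one_lt_rpow hb1 (by positivity)
  obtain ⟨l₀, hl₀⟩ := pow_unbounded_of_one_lt ((2 * w ^ 2 : ℕ) : ℝ) h1
  set l := l₀ + 1 with hl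
  have h2 : ((2 * w ^ 2 : ℕ) : ℝ) ≤ ((b : ℝ) ^ (ε / 4)) ^ l :=
    hl₀.le.trans (pow_le_pow_right₀ h1.le (by omega))
  set B := b ^ l with hB
  have hB2 : 2 ≤ B := by
    rw [hB, hl, pow_succ]
    have : 1 ≤ b ^ l₀ := Nat.one_le_pow _ _ (by omega)
    nlinarith
  have hBr : (1 : ℝ) < (B : ℝ) := by exact_mod_cast (show 1 < B by omega)
  set lb := Real.log B with hlb
  have hlb0 : 0 < lb := Real.log_pos hBr
  have hBexp : (B : ℝ) = Real.exp lb := (Real.exp_log (by linarith)).symm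
  have h2' : ((2 * w ^ 2 : ℕ) : ℝ) ≤ Real.exp (lb * (ε / 4)) := by
    refine h2.trans (le_of_eq ?_)
    rw [← Real.rpow_natCast, ← Real.rpow_mul hb0.le, mul_comm (ε / 4), Real.rpow_mul hb0.le,
      Real.rpow_natCast]
    have : ((b : ℝ) ^ l) = (B : ℝ) := by rw [hB]; push_cast; rfl
    rw [this, Real.rpow_def_of_pos (by linarith)]
  set c := Real.log (8 / 7) with hc
  have hc0 : 0 < c := Real.log_pos (by norm_num)
  refine ⟨c * ε / (2 * lb), by positivity, Real.exp (c * ε / 2 + c) + Real.exp (lb * ε / 2),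
    by positivity, ?_⟩
  intro h K A S f t N Y hh hr hS hf hN
  set n := Nat.log B N with hn
  have hN1 : N < B ^ (n + 1) := Nat.lt_pow_succ_log_self (by omega) N
  have hN2 : B ^ n ≤ N := Nat.pow_log_le_self B (by omega)
  set k := ⌊ε * n / 2⌋₊ with hk
  have hk1 : (k : ℝ) ≤ ε * n / 2 := Nat.floor_le (by positivity)
  have hk2 : ε * n / 2 - 1 < (k : ℝ) := by
    have := Nat.lt_floor_add_one (ε * n / 2)
    linarith
  have hNr : (0 : ℝ) < N := by exact_mod_cast hN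
  set L := Real.log N with hL
  have hL1 : (n : ℝ) * lb ≤ L := by
    rw [hlb, hL, ← Real.log_pow]
    refine Real.log_le_log (by positivity) ?_
    exact_mod_cast hN2
  have hL2 : L ≤ ((n : ℝ) + 1) * lb := by
    have h5 : ((n : ℝ) + 1) * lb = Real.log ((B : ℝ) ^ (n + 1)) := by
      rw [Real.log_pow]; push_cast; rfl
    rw [h5, hL]
    refine Real.log_le_log hNr ?_
    exact_mod_cast hN1.le
  have hmain := count (b := b) (w := w) (l := l) (m := n + 1) (N := N) hb (by omega) hN1 hh hr hS hf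
    t k
  refine hmain.trans ?_
  have hW : (0 : ℝ) ≤ ({x | x ∈ S ∧ x ≤ N} : Set ℕ).ncard := Nat.cast_nonneg _
  set W : ℝ := (({x | x ∈ S ∧ x ≤ N} : Set ℕ).ncard : ℝ) with hWdef
  have hNδ : (N : ℝ) ^ (-(c * ε / (2 * lb))) = Real.exp (-(c * ε / (2 * lb)) * L) := by
    rw [Real.rpow_def_of_pos hNr, mul_comm]
  have hNε : (N : ℝ) ^ ε = Real.exp (ε * L) := by
    rw [Real.rpow_def_of_pos hNr, mul_comm]
  have e1 : (7 / 8 : ℝ) ^ k ≤ Real.exp (c * ε / 2 + c) * (N : ℝ) ^ (-(c * ε / (2 * lb))) := by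
    have h6 : (7 / 8 : ℝ) = Real.exp (-c) := by
      rw [Real.exp_neg, hc, Real.exp_log (by norm_num)]; norm_num
    rw [h6, ← Real.exp_nat_mul, hNδ, ← Real.exp_add, Real.exp_le_exp]
    have h7 : L / lb ≤ (n : ℝ) + 1 := by rw [div_le_iff₀ hlb0]; exact hL2
    have h8 : c * ε / (2 * lb) * L = c * ε / 2 * (L / lb) := by field_simp
    have h9 : c * ε / 2 * (L / lb) ≤ c * ε / 2 * ((n : ℝ) + 1) :=
      mul_le_mul_of_nonneg_left h7 (by positivity)
    have h10 : c * (ε * n / 2 - 1) ≤ c * k := mul_le_mul_of_nonneg_left hk2.le hc0.le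
    have h11 : -(c * ε / (2 * lb)) * L = -(c * ε / 2 * (L / lb)) := by rw [← h8]; ring
    rw [h11]
    nlinarith
  have e2 : ((2 * w ^ 2 : ℕ) : ℝ) ^ (n + 1 + 1) * ((b ^ l : ℕ) : ℝ) ^ k ≤
      Real.exp (lb * ε / 2) * (N : ℝ) ^ ε := by
    have h6 : ((2 * w ^ 2 : ℕ) : ℝ) ^ (n + 1 + 1) ≤ Real.exp (lb * (ε / 4)) ^ (n + 1 + 1) :=
      pow_le_pow_left₀ (by positivity) h2' _
    have h7 : ((b ^ l : ℕ) : ℝ) ^ k = Real.exp lb ^ k := by rw [← hB, hBexp]
    rw [h7]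
    refine (mul_le_mul_of_nonneg_right h6 (by positivity)).trans ?_
    rw [← Real.exp_nat_mul, ← Real.exp_nat_mul, ← Real.exp_add, hNε, ← Real.exp_add,
      Real.exp_le_exp]
    push_cast
    have h8 : (k : ℝ) * lb ≤ ε * n / 2 * lb := mul_le_mul_of_nonneg_right hk1 hlb0.le
    have h9 : ε * (n * lb) ≤ ε * L := mul_le_mul_of_nonneg_left hL1 hε.le
    have h10 : 0 ≤ ε * (n * lb) := by positivity
    nlinarith
  have hfac : (0 : ℝ) ≤ h.factorial * K := by positivity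
  have hE1 : 0 < Real.exp (c * ε / 2 + c) := Real.exp_pos _
  have hE2 : 0 < Real.exp (lb * ε / 2) := Real.exp_pos _
  have hP1 : (0 : ℝ) ≤ (N : ℝ) ^ (-(c * ε / (2 * lb))) := by positivity
  have hP2 : (0 : ℝ) ≤ (N : ℝ) ^ ε := by positivity
  calc (h.factorial * K * ((7 / 8 : ℝ) ^ k * W +
        ((2 * w ^ 2 : ℕ) : ℝ) ^ (n + 1 + 1) * ((b ^ l : ℕ) : ℝ) ^ k) : ℝ)
      ≤ h.factorial * K * (Real.exp (c * ε / 2 + c) * (N : ℝ) ^ (-(c * ε / (2 * lb))) * W +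
        Real.exp (lb * ε / 2) * (N : ℝ) ^ ε) := by
        refine mul_le_mul_of_nonneg_left (add_le_add ?_ e2) hfac
        exact mul_le_mul_of_nonneg_right e1 hW
    _ ≤ h.factorial * K * ((Real.exp (c * ε / 2 + c) + Real.exp (lb * ε / 2)) *
          ((N : ℝ) ^ (-(c * ε / (2 * lb))) * W + (N : ℝ) ^ ε)) := by
        refine mul_le_mul_of_nonneg_left ?_ hfac
        have h12 : 0 ≤ (N : ℝ) ^ (-(c * ε / (2 * lb))) * W := mul_nonneg hP1 hW
        nlinarith [mul_nonneg hE1.le hP2, mul_nonneg hE2.le h12]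
    _ = _ := by ring

end Pool.Agent.V11226.ET
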