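import Pool.Agent.V11226.ET.Cons

/-!
# The parity of the representation function and automatic sequences
-/

set_option autoImplicit false

open Finset Filter

namespace Pool.Agent.V11226.ET

/-- `r_A(2 m)` is odd if and only if `m ∈ A`. -/
theorem odd_rep (A : Set ℕ) (m : ℕ) : Odd (rep A (2 * m)) ↔ m ∈ A := by
  classical
  unfold rep
  rw [Set.ncard_eq_toFinset_card _ (pairs_finite A (2 * m))]
  set P := (pairs_finite A (2 * m)).toFinset with hP
  have hmem : ∀ p : ℕ × ℕ, p ∈ P ↔ p.1 ∈ A ∧ p.2 ∈ A ∧ p.1 + p.2 = 2 * m := by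
    intro p
    rw [hP, Set.Finite.mem_toFinset]
    exact Iff.rfl
  have heven : Even (P.erase (m, m)).card := by
    rw [← ZMod.natCast_eq_zero_iff_even]
    have h1 : ((P.erase (m, m)).card : ZMod 2) = ∑ p ∈ P.erase (m, m), (1 : ZMod 2) := by
      rw [sum_const, nsmul_eq_mul, mul_one]
    rw [h1]
    refine Finset.sum_involution (fun p _ => (p.2, p.1)) ?_ ?_ ?_ ?_
    · intro p _
      decide
    · intro p hp _ heq
      rw [mem_erase, hmem] at hp
      have h2 : p.2 = p.1 := congrArg Prod.fst heq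
      refine hp.1 (Prod.ext ?_ ?_)
      · show p.1 = m
        have := hp.2.2.2
        omega
      · show p.2 = m
        have := hp.2.2.2
        omega
    · intro p hp
      rw [mem_erase, hmem] at hp ⊢
      refine ⟨?_, hp.2.2.1, hp.2.1, by have := hp.2.2.2; show p.2 + p.1 = 2 * m; omega⟩
      intro h2
      refine hp.1 (Prod.ext ?_ ?_)
      · exact congrArg Prod.snd h2
      · exact congrArg Prod.fst h2
    · intro p _
      rfl
  by_cases hm : m ∈ A
  · have h1 : (m, m) ∈ P := (hmem _).2 ⟨hm, hm, by show m + m = 2 * m; omega⟩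
    have h2 : P.card = (P.erase (m, m)).card + 1 := (card_erase_add_one h1).symm
    rw [h2]
    exact ⟨fun _ => hm, fun _ => heven.add_one⟩
  · have h1 : (m, m) ∉ P := fun h => hm ((hmem _).1 h).1
    rw [erase_eq_of_notMem h1] at heven
    exact ⟨fun h => absurd heven (Nat.not_even_iff_odd.2 h), fun h => absurd h hm⟩

theorem recognised_of_fintype {Q : Type*} [Fintype Q] (b : ℕ) (δ : Q → ℕ → Q) (q₀ : Q) (F : Set Q)
    (S : Set ℕ) (hS : ∀ x, x ∈ S ↔ (Nat.digits b x).foldl δ q₀ ∈ F) :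
    Recognised b (Fintype.card Q) S := by
  classical
  let e := Fintype.equivFin Q
  refine ⟨fun q d => e (δ (e.symm q) d), e q₀, {q | e.symm q ∈ F}, fun x => ?_⟩
  rw [hS]
  have h1 : ∀ (l : List ℕ) (q : Q), l.foldl (fun q d => e (δ (e.symm q) d)) (e q) =
      e (l.foldl δ q) := by
    intro l
    induction l with
    | nil => intro q; rfl
    | cons d l ih =>
      intro q
      rw [List.foldl_cons, List.foldl_cons, Equiv.symm_apply_apply, ih]
  show _ ↔ e.symm _ ∈ F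
  rw [h1, Equiv.symm_apply_apply]

section double
variable {Q : Type*} (b : ℕ) (δ : Q → ℕ → Q)

/-- reading the digits of `m`, simulating the automaton on the digits of `2 m + c` -/
def dstep (s : Q × Bool) (d : ℕ) : Q × Bool :=
  (δ s.1 ((2 * d + s.2.toNat) % b), decide (b ≤ 2 * d + s.2.toNat))

def dfin (s : Q × Bool) : Q := if s.2 then δ s.1 1 else s.1

theorem double_fold (hb : 2 ≤ b) (m : ℕ) (q : Q) (c : Bool) :
    (Nat.digits b (2 * m + c.toNat)).foldl δ q =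
      dfin δ ((Nat.digits b m).foldl (dstep b δ) (q, c)) := by
  induction m using Nat.strong_induction_on generalizing q c with
  | _ m ih =>
    rcases Nat.eq_zero_or_pos m with h0 | h0
    · subst h0
      cases c
      · simp [dfin]
      · simp only [Bool.toNat_true, Nat.mul_zero, Nat.zero_add, Nat.digits_zero, List.foldl_nil,
          dfin, if_true]
        rw [Nat.digits_of_lt b 1 one_ne_zero (by omega)]
        rfl
    · have hc : c.toNat ≤ 1 := by cases c <;> simp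
      have h1 := Nat.div_add_mod m b
      have hd : m % b < b := Nat.mod_lt _ (by omega)
      rw [Nat.digits_def' (by omega) (show 0 < 2 * m + c.toNat by omega), List.foldl_cons,
        Nat.digits_def' (by omega) h0, List.foldl_cons]
      set d := m % b with hdd
      set m' := m / b with hm'
      have hm'lt : m' < m := Nat.div_lt_self h0 (by omega)
      have e0 : 2 * m + c.toNat = b * (2 * m') + (2 * d + c.toNat) := by
        rw [← h1]; ring
      have e1 : (2 * m + c.toNat) % b = (2 * d + c.toNat) % b := by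
        rw [e0, Nat.mul_add_mod]
      have e2 : (2 * m + c.toNat) / b = 2 * m' + (decide (b ≤ 2 * d + c.toNat)).toNat := by
        rw [e0, Nat.mul_add_div (by omega)]
        congr 1
        by_cases h2 : b ≤ 2 * d + c.toNat
        · rw [decide_eq_true h2]
          rw [Bool.toNat_true]
          exact Nat.div_eq_of_lt_le (by omega) (by omega)
        · rw [decide_eq_false h2]
          rw [Bool.toNat_false]
          exact Nat.div_eq_of_lt (by omega)
      rw [e1, e2, ih m' hm'lt]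
      rfl

end double

/-- the set of the `m` with `2 m ∈ P` is automatic if `P` is -/
theorem recognised_half {b w : ℕ} (hb : 2 ≤ b) {P : Set ℕ} (hP : Recognised b w P) :
    Recognised b (w * 2) {m | 2 * m ∈ P} := by
  obtain ⟨δ, q₀, F, hF⟩ := hP
  have h := recognised_of_fintype (Q := Fin w × Bool) b (dstep b δ) (q₀, false)
    {s | dfin δ s ∈ F} {m | 2 * m ∈ P} (fun m => by
      show 2 * m ∈ P ↔ _
      rw [hF]
      have h1 := double_fold b δ hb m q₀ false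
      simp only [Bool.toNat_false, Nat.add_zero] at h1
      rw [h1]
      exact Iff.rfl)
  simpa using h

/-- the hypothesis of Q1 or of Q2 -/
def Hyp (A : Set ℕ) : Prop :=
  (∀ᶠ n in atTop, 1 ≤ rep A n) ∨
    (A.Infinite ∧ ∃ C : ℕ, ∀ n, Nat.nth (fun a => a ∈ A) n ≤ C * (n + 1) ^ 2)

theorem two_power (b w : ℕ) (hb : 2 ≤ b) :
    ∃ δ : ℝ, 0 < δ ∧ ∀ (A S : Set ℕ) (κ : ℝ), Recognised b w S → 0 < κ →
      (∀ M : ℕ, ∃ N ≥ M,
        (({x | x ∈ S ∧ x ≤ N} : Set ℕ).ncard : ℝ) ≤ (N : ℝ) ^ (1 / 2 + δ : ℝ) ∧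
        κ * ({x | x ∈ A ∧ x ≤ N} : Set ℕ).ncard ≤ ({x | x ∈ A ∧ x ∈ S ∧ x ≤ N} : Set ℕ).ncard) →
      Hyp A → ∀ M : ℕ, ∃ n ≥ M, (n : ℝ) ^ δ ≤ rep A n := by
  obtain ⟨δ₁, hδ₁, H1⟩ := basis_power b w 2 hb le_rfl
  obtain ⟨δ₂, hδ₂, H2⟩ := thin_power b w 2 hb le_rfl
  refine ⟨min δ₁ δ₂, lt_min hδ₁ hδ₂, ?_⟩
  intro A S κ hS hκ hinf hor M
  have hfin : ∀ n : ℕ, M + 1 ≤ n → (n : ℝ) ^ min δ₁ δ₂ ≤ (n : ℝ) ^ δ₁ ∧
      (n : ℝ) ^ min δ₁ δ₂ ≤ (n : ℝ) ^ δ₂ := by
    intro n hn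
    have h1 : (1 : ℝ) ≤ n := by exact_mod_cast (show 1 ≤ n by omega)
    exact ⟨Real.rpow_le_rpow_of_exponent_le h1 (min_le_left _ _),
      Real.rpow_le_rpow_of_exponent_le h1 (min_le_right _ _)⟩
  have hcast : ∀ n : ℕ, ((msets A 2 n).ncard : ℝ) ≤ rep A n := fun n => by
    exact_mod_cast msets_two_le A n
  rcases hor with hQ | ⟨hA, C, hC⟩
  · obtain ⟨n₀, hn₀⟩ := eventually_atTop.1 hQ
    obtain ⟨n, hnM, hn⟩ := H1 A S κ n₀
      (fun n hn => nonempty_of_rep (hn₀ n hn)) hS hκ (by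
        intro M
        obtain ⟨N, hN, h1, h2⟩ := hinf (max M 1)
        refine ⟨N, le_trans (le_max_left _ _) hN, ?_, h2⟩
        have hN1 : (1 : ℝ) ≤ N := by exact_mod_cast le_trans (le_max_right _ _) hN
        refine h1.trans (Real.rpow_le_rpow_of_exponent_le hN1 ?_)
        push_cast
        linarith [min_le_left δ₁ δ₂]) (M + 1)
    exact ⟨n, by omega, (hfin n hnM).1.trans (hn.trans (hcast n))⟩
  · have hC1 : ∀ n, Nat.nth (fun a => a ∈ A) n ≤ (C + 1) * (n + 1) ^ 2 := fun n =>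
      (hC n).trans (Nat.mul_le_mul_right _ (by omega))
    have hs : 0 < Real.sqrt ((C + 1 : ℕ) : ℝ) := Real.sqrt_pos.2 (by positivity)
    obtain ⟨n, hnM, hn⟩ := H2 A S (κ / (2 * Real.sqrt ((C + 1 : ℕ) : ℝ))) hS (by positivity) (by
        intro M
        obtain ⟨N, hN, h1, h2⟩ := hinf (max (max M 1) (4 * (C + 1)))
        have hN1 : 1 ≤ N := le_trans (le_trans (le_max_right _ _) (le_max_left _ _)) hN
        have hNC : 4 * (C + 1) ≤ N := le_trans (le_max_right _ _) hN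
        refine ⟨N, le_trans (le_trans (le_max_left _ _) (le_max_left _ _)) hN, ?_, ?_⟩
        · have h3 := count_of_nth hA (by omega) hC1 N hNC
          have h4 : (N : ℝ) ^ (1 / (2 : ℕ) : ℝ) = Real.sqrt N := by
            rw [Real.sqrt_eq_rpow]
            norm_num
          rw [h4]
          refine le_trans ?_ h2
          rw [div_mul_eq_mul_div, div_le_iff₀ (by positivity)]
          have h5 := mul_le_mul_of_nonneg_left h3 hκ.le
          refine h5.trans (le_of_eq ?_)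
          ring
        · have hN1r : (1 : ℝ) ≤ N := by exact_mod_cast hN1
          refine h1.trans (Real.rpow_le_rpow_of_exponent_le hN1r ?_)
          push_cast
          linarith [min_le_right δ₁ δ₂]) (M + 1)
    exact ⟨n, by omega, (hfin n hnM).2.trans (hn.trans (hcast n))⟩

/-- counting pairs -/
theorem sq_count_le (A : Set ℕ) (N : ℕ) :
    ({x | x ∈ A ∧ x ≤ N} : Set ℕ).ncard ^ 2 ≤ ∑ n ∈ range (2 * N + 1), rep A n := by
  classical
  have hfin : ({x | x ∈ A ∧ x ≤ N} : Set ℕ).Finite := (Set.finite_Iic N).subset fun x hx => hx.2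
  set X := hfin.toFinset with hX
  rw [Set.ncard_eq_toFinset_card _ hfin, ← hX, sq, ← card_product]
  have hmem : ∀ x, x ∈ X ↔ x ∈ A ∧ x ≤ N := by
    intro x
    rw [hX, Set.Finite.mem_toFinset]
    exact Iff.rfl
  rw [card_eq_sum_card_fiberwise (f := fun p : ℕ × ℕ => p.1 + p.2) (s := X ×ˢ X)
    (t := range (2 * N + 1))]
  · refine sum_le_sum fun n _ => ?_
    rw [← Set.ncard_coe_finset]
    refine Set.ncard_le_ncard ?_ (pairs_finite A n)
    rintro ⟨x, y⟩ hxy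
    rw [Finset.mem_coe, mem_filter, mem_product, hmem, hmem] at hxy
    exact ⟨hxy.1.1.1, hxy.1.2.1, hxy.2⟩
  · rintro ⟨x, y⟩ hxy
    rw [Finset.mem_coe, mem_product, hmem, hmem] at hxy
    rw [Finset.mem_coe, mem_range]
    have := hxy.1.2
    have := hxy.2.2
    simp only at *
    omega

/-- the number of `m ≤ N` where the parity of `r_A(2 m)` differs from the indicator of `P` -/
noncomputable def errors (A P : Set ℕ) (N : ℕ) : ℕ :=
  {m : ℕ | m ≤ N ∧ ¬ (Odd (rep A (2 * m)) ↔ 2 * m ∈ P)}.ncard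

theorem parity_power (b w : ℕ) (hb : 2 ≤ b) :
    ∃ δ : ℝ, 0 < δ ∧ ∀ (A P : Set ℕ) (κ : ℝ), Recognised b w P → 0 < κ → Hyp A →
      (∀ M : ℕ, ∃ N ≥ M, (errors A P N : ℝ) ≤ (1 - κ) * ({x | x ∈ A ∧ x ≤ N} : Set ℕ).ncard) →
      ∀ M : ℕ, ∃ n ≥ M, (n : ℝ) ^ δ ≤ rep A n := by
  obtain ⟨δ, hδ, H⟩ := two_power b (w * 2) hb
  refine ⟨δ, hδ, ?_⟩
  intro A P κ hP hκ hA hinf
  by_contra hcon
  have hcon' := hcon
  push Not at hcon
  obtain ⟨M₀, hM₀⟩ := hcon
  apply hcon'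
  set R : ℝ := ((∑ n ∈ range M₀, rep A n : ℕ) : ℝ) with hR
  have hR0 : 0 ≤ R := Nat.cast_nonneg _
  -- the number of elements of `A`
  have hcount : ∀ N : ℕ, 1 ≤ N → ((({x | x ∈ A ∧ x ≤ N} : Set ℕ).ncard : ℝ)) ^ 2 ≤
      (3 * R + 3 * 2 ^ δ) * (N : ℝ) ^ (1 + δ) := by
    intro N hN
    have hNr : (1 : ℝ) ≤ N := by exact_mod_cast hN
    have hN0 : (0 : ℝ) < N := by linarith
    have h1 : ((({x | x ∈ A ∧ x ≤ N} : Set ℕ).ncard : ℝ)) ^ 2 ≤
        ∑ n ∈ range (2 * N + 1), (rep A n : ℝ) := by exact_mod_cast sq_count_le A N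
    have h2 : ∀ n ∈ range (2 * N + 1), (rep A n : ℝ) ≤ R + 2 ^ δ * (N : ℝ) ^ δ := by
      intro n hn
      rw [mem_range] at hn
      have h3 : (0 : ℝ) ≤ 2 ^ δ * (N : ℝ) ^ δ := by positivity
      rcases lt_or_ge n M₀ with h4 | h4
      · have h5 : rep A n ≤ ∑ n ∈ range M₀, rep A n :=
          single_le_sum (f := fun n => rep A n) (fun _ _ => Nat.zero_le _) (mem_range.2 h4)
        have h6 : (rep A n : ℝ) ≤ R := by rw [hR]; exact_mod_cast h5
        linarith
      · have h5 := (hM₀ n h4).le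
        have h6 : (n : ℝ) ^ δ ≤ (2 * (N : ℝ)) ^ δ :=
          Real.rpow_le_rpow (Nat.cast_nonneg _) (by exact_mod_cast (show n ≤ 2 * N by omega)) hδ.le
        rw [Real.mul_rpow (by norm_num) hN0.le] at h6
        linarith
    have h3 := sum_le_card_nsmul _ _ _ h2
    rw [card_range, nsmul_eq_mul] at h3
    push_cast at h3
    have h4 : 1 ≤ (N : ℝ) ^ δ := Real.one_le_rpow hNr hδ.le
    have h5 : (N : ℝ) ^ (1 + δ) = N * (N : ℝ) ^ δ := by
      rw [Real.rpow_add hN0, Real.rpow_one]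
    rw [h5]
    have h6 : R + 2 ^ δ * (N : ℝ) ^ δ ≤ (R + 2 ^ δ) * (N : ℝ) ^ δ := by nlinarith
    have h7 : (0 : ℝ) ≤ (R + 2 ^ δ) * (N : ℝ) ^ δ := by positivity
    calc _ ≤ (2 * (N : ℝ) + 1) * (R + 2 ^ δ * (N : ℝ) ^ δ) := h1.trans h3
      _ ≤ (3 * (N : ℝ)) * ((R + 2 ^ δ) * (N : ℝ) ^ δ) := by
          refine mul_le_mul (by linarith) h6 (by positivity) (by positivity)
      _ = _ := by ring
  set D : ℝ := 3 * R + 3 * 2 ^ δ with hD
  have hD0 : 0 < D := by positivity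
  -- for large `N` the bound is at most a quarter of `N ^ (1 + 2 δ)`
  have hlarge : ∀ᶠ N : ℕ in atTop, 4 * D ≤ (N : ℝ) ^ δ :=
    ((tendsto_rpow_atTop hδ).comp tendsto_natCast_atTop_atTop).eventually_ge_atTop _
  obtain ⟨M₁, hM₁⟩ := eventually_atTop.1 hlarge
  refine H A {m | 2 * m ∈ P} κ (recognised_half hb hP) hκ ?_ hA
  intro M
  obtain ⟨N, hN, herr⟩ := hinf (max (max M 1) M₁)
  have hN1 : 1 ≤ N := le_trans (le_trans (le_max_right _ _) (le_max_left _ _)) hN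
  have hNM₁ : M₁ ≤ N := le_trans (le_max_right _ _) hN
  have hNr : (1 : ℝ) ≤ N := by exact_mod_cast hN1
  have hN0 : (0 : ℝ) < N := by linarith
  refine ⟨N, le_trans (le_trans (le_max_left _ _) (le_max_left _ _)) hN, ?_, ?_⟩
  · have hfinA : ({x | x ∈ A ∧ x ≤ N} : Set ℕ).Finite := (Set.finite_Iic N).subset fun x hx => hx.2
    have hfinE : ({m : ℕ | m ≤ N ∧ ¬ (Odd (rep A (2 * m)) ↔ 2 * m ∈ P)} : Set ℕ).Finite :=
      (Set.finite_Iic N).subset fun x hx => hx.1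
    have h1 : ({x | x ∈ ({m | 2 * m ∈ P} : Set ℕ) ∧ x ≤ N} : Set ℕ).ncard ≤
        ({x | x ∈ A ∧ x ≤ N} : Set ℕ).ncard + errors A P N := by
      refine (Set.ncard_le_ncard ?_ (hfinA.union hfinE)).trans (Set.ncard_union_le _ _)
      rintro x ⟨hx1, hx2⟩
      by_cases hxA : x ∈ A
      · exact Or.inl ⟨hxA, hx2⟩
      · refine Or.inr ⟨hx2, ?_⟩
        rw [odd_rep]
        intro h
        exact hxA (h.2 hx1)
    have h2 : (({x | x ∈ ({m | 2 * m ∈ P} : Set ℕ) ∧ x ≤ N} : Set ℕ).ncard : ℝ) ≤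
        2 * ({x | x ∈ A ∧ x ≤ N} : Set ℕ).ncard := by
      have h3 : (({x | x ∈ ({m | 2 * m ∈ P} : Set ℕ) ∧ x ≤ N} : Set ℕ).ncard : ℝ) ≤
          ({x | x ∈ A ∧ x ≤ N} : Set ℕ).ncard + errors A P N := by exact_mod_cast h1
      have h4 : (0 : ℝ) ≤ ({x | x ∈ A ∧ x ≤ N} : Set ℕ).ncard := Nat.cast_nonneg _
      nlinarith
    refine h2.trans ?_
    have h5 : (2 * (({x | x ∈ A ∧ x ≤ N} : Set ℕ).ncard : ℝ)) ^ 2 ≤
        ((N : ℝ) ^ (1 / 2 + δ : ℝ)) ^ 2 := by
      have h6 : ((N : ℝ) ^ (1 / 2 + δ : ℝ)) ^ 2 = (N : ℝ) ^ δ * (N : ℝ) ^ (1 + δ) := by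
        rw [← Real.rpow_natCast, ← Real.rpow_mul hN0.le, ← Real.rpow_add hN0]
        congr 1
        push_cast
        ring
      rw [h6, mul_pow]
      have h7 := hcount N hN1
      have h8 := hM₁ N hNM₁
      have h9 : (0 : ℝ) ≤ (N : ℝ) ^ (1 + δ) := by positivity
      nlinarith
    exact le_of_pow_le_pow_left₀ two_ne_zero (by positivity) h5
  · have hfinS : ({x | x ∈ A ∧ x ∈ ({m | 2 * m ∈ P} : Set ℕ) ∧ x ≤ N} : Set ℕ).Finite :=
      (Set.finite_Iic N).subset fun x hx => hx.2.2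
    have hfinE : ({m : ℕ | m ≤ N ∧ ¬ (Odd (rep A (2 * m)) ↔ 2 * m ∈ P)} : Set ℕ).Finite :=
      (Set.finite_Iic N).subset fun x hx => hx.1
    have h1 : ({x | x ∈ A ∧ x ≤ N} : Set ℕ).ncard ≤
        ({x | x ∈ A ∧ x ∈ ({m | 2 * m ∈ P} : Set ℕ) ∧ x ≤ N} : Set ℕ).ncard + errors A P N := by
      refine (Set.ncard_le_ncard ?_ (hfinS.union hfinE)).trans (Set.ncard_union_le _ _)
      rintro x ⟨hx1, hx2⟩
      by_cases hxP : 2 * x ∈ P
      · exact Or.inl ⟨hx1, hxP, hx2⟩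
      · refine Or.inr ⟨hx2, ?_⟩
        rw [odd_rep]
        intro h
        exact hxP (h.1 hx1)
    have h2 : (({x | x ∈ A ∧ x ≤ N} : Set ℕ).ncard : ℝ) ≤
        ({x | x ∈ A ∧ x ∈ ({m | 2 * m ∈ P} : Set ℕ) ∧ x ≤ N} : Set ℕ).ncard + errors A P N := by
      exact_mod_cast h1
    linarith

end Pool.Agent.V11226.ET
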